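/-
Piece OPS of the Nakayama project: the identities between the operators.
-/
import Pool.Agent.Run7.h433.Nak.Iface

set_option autoImplicit false

namespace Run7.h270.Nak

open Run7.h433.Nak

variable {V : Type} [AddCommGroup V] [Module ℚ V]

theorem wAA (x : W V) : oM mA (oM mA x) = 0 := by
  rw [← oM_mul, rel_AA]
  simp only [oM_zero]

theorem wBB (x : W V) : oM mB (oM mB x) = 0 := by
  rw [← oM_mul, rel_BB]
  simp only [oM_zero]

theorem wFF (x : W V) : oM mF (oM mF x) = 0 := by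
  rw [← oM_mul, rel_FF]
  simp only [oM_zero]

theorem wXX (x : W V) : oM mX (oM mX x) = 0 := by
  rw [← oM_mul, rel_XX]
  simp only [oM_zero]

theorem wZZ (x : W V) : oM mZ (oM mZ x) = -oM mA (oM mX (oM mF (oM mB x))) := by
  rw [← oM_mul, rel_ZZ]
  simp only [oM_neg, oM_mul]

theorem wBA (x : W V) : oM mB (oM mA x) = -oM mA (oM mB x) := by
  rw [← oM_mul, rel_BA]
  simp only [oM_neg, oM_mul]

theorem wFA (x : W V) : oM mF (oM mA x) = -oM mA (oM mF x) := by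
  rw [← oM_mul, rel_FA]
  simp only [oM_neg, oM_mul]

theorem wXA (x : W V) : oM mX (oM mA x) = -oM mA (oM mX x) - oM mF (oM mB x) := by
  rw [← oM_mul, rel_XA]
  simp only [oM_sub, oM_neg, oM_mul]

theorem wZA (x : W V) : oM mZ (oM mA x) = -oM mA (oM mZ x) := by
  rw [← oM_mul, rel_ZA]
  simp only [oM_neg, oM_mul]

theorem wFB (x : W V) : oM mB (oM mF x) = -oM mF (oM mB x) := by
  rw [← oM_mul, rel_FB]
  simp only [oM_neg, oM_mul]

theorem wXB (x : W V) : oM mB (oM mX x) = -oM mX (oM mB x) := by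
  rw [← oM_mul, rel_XB]
  simp only [oM_neg, oM_mul]

theorem wFX (x : W V) : oM mF (oM mX x) = -oM mX (oM mF x) := by
  rw [← oM_mul, rel_FX]
  simp only [oM_neg, oM_mul]

theorem wZB (x : W V) : oM mZ (oM mB x) = -oM mB (oM mZ x) + (2 : ℚ) • oM mX (oM mB x) := by
  rw [← oM_mul, rel_ZB]
  simp only [oM_add, oM_neg, oM_smul, oM_mul]

theorem wZF (x : W V) : oM mZ (oM mF x) = -oM mF (oM mZ x) - (2 : ℚ) • oM mX (oM mF x) := by
  rw [← oM_mul, rel_ZF]
  simp only [oM_sub, oM_neg, oM_smul, oM_mul]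

theorem wZX (x : W V) : oM mZ (oM mX x) = -oM mX (oM mZ x) := by
  rw [← oM_mul, rel_ZX]
  simp only [oM_neg, oM_mul]

theorem wdAA (x : W V) : oM dA (oM mA x) = x - oM mA (oM dA x) := by
  rw [← oM_mul, rel_dAA]
  simp only [oM_sub, oM_one, oM_mul]

theorem wdAB (x : W V) : oM dA (oM mB x) = -oM mB (oM dA x) := by
  rw [← oM_mul, rel_dAB]
  simp only [oM_neg, oM_mul]

theorem wdAF (x : W V) : oM dA (oM mF x) = -oM mF (oM dA x) := by
  rw [← oM_mul, rel_dAF]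
  simp only [oM_neg, oM_mul]

theorem wdAX (x : W V) : oM dA (oM mX x) = -oM mX (oM dA x) := by
  rw [← oM_mul, rel_dAX]
  simp only [oM_neg, oM_mul]

theorem wdAZ (x : W V) : oM dA (oM mZ x) = -oM mZ (oM dA x) - oM mX (oM mF (oM mB (oM dZ x))) := by
  rw [← oM_mul, rel_dAZ]
  simp only [oM_sub, oM_neg, oM_mul]

theorem wdAdA (x : W V) : oM dA (oM dA x) = 0 := by
  rw [← oM_mul, rel_dAdA]
  simp only [oM_zero]

theorem wdZA (x : W V) : oM dZ (oM mA x) = -oM mA (oM dZ x) := by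
  rw [← oM_mul, rel_dZA]
  simp only [oM_neg, oM_mul]

theorem wdZB (x : W V) : oM dZ (oM mB x) = -oM mB (oM dZ x) := by
  rw [← oM_mul, rel_dZB]
  simp only [oM_neg, oM_mul]

theorem wdZF (x : W V) : oM dZ (oM mF x) = -oM mF (oM dZ x) := by
  rw [← oM_mul, rel_dZF]
  simp only [oM_neg, oM_mul]

theorem wdZX (x : W V) : oM dZ (oM mX x) = -oM mX (oM dZ x) := by
  rw [← oM_mul, rel_dZX]
  simp only [oM_neg, oM_mul]

theorem wdZZ (x : W V) : oM dZ (oM mZ x) = x - oM mZ (oM dZ x) := by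
  rw [← oM_mul, rel_dZZ]
  simp only [oM_sub, oM_one, oM_mul]

theorem wdZdZ (x : W V) : oM dZ (oM dZ x) = 0 := by
  rw [← oM_mul, rel_dZdZ]
  simp only [oM_zero]

theorem wdZdA (x : W V) : oM dZ (oM dA x) = -oM dA (oM dZ x) := by
  rw [← oM_mul, rel_dZdA]
  simp only [oM_neg, oM_mul]

theorem oLfe (S : SL V) (x : W V) : oL S.f (oL S.e x) = oL S.e (oL S.f x) - oL S.h x := by
  funext τ r
  show S.f (S.e (x τ r)) = S.e (S.f (x τ r)) - S.h (x τ r)
  rw [← S.ef]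
  simp

theorem oLhe (S : SL V) (x : W V) : oL S.h (oL S.e x) = oL S.e (oL S.h x) + (2 : ℚ) • oL S.e x := by
  funext τ r
  show S.h (S.e (x τ r)) = S.e (S.h (x τ r)) + (2 : ℚ) • S.e (x τ r)
  have h := congrArg (fun m => m (x τ r)) S.he
  simp only [LinearMap.sub_apply, Module.End.mul_apply, LinearMap.smul_apply] at h
  rw [← h]
  abel

theorem oLhf (S : SL V) (x : W V) : oL S.h (oL S.f x) = oL S.f (oL S.h x) - (2 : ℚ) • oL S.f x := by
  funext τ r
  show S.h (S.f (x τ r)) = S.f (S.h (x τ r)) - (2 : ℚ) • S.f (x τ r)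
  have h := congrArg (fun m => m (x τ r)) S.hf
  simp only [LinearMap.sub_apply, Module.End.mul_apply, LinearMap.smul_apply,
    LinearMap.neg_apply] at h
  rw [sub_eq_add_neg, ← h]
  abel

theorem oa_ap (S : SL V) (x : W V) : oa S x = oM mA x - oL S.e (oM mB x) := rfl

theorem oz_ap (S : SL V) (x : W V) :
    oz S x = oM mZ x - oL S.f (oM mF x) - oL S.h (oM mX x) := rfl

theorem ok_ap (x : W V) : (ok x : W V) = oM mX (oM mF (oM mB x)) := by
  rw [← oM_mul, ← oM_mul]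
  rfl

theorem oda_ap (x : W V) : (oda x : W V) = oM dA x := rfl

theorem odz_ap (x : W V) : (odz x : W V) = oM dZ x := rfl

theorem ops : S_OPS := by
  intro V _ _ S
  exact
    { aa := fun x => by
          simp only [oa_ap, oz_ap, ok_ap, oda_ap, odz_ap, map_add, map_sub, map_neg, map_smul, map_zero, oM_oL, oLfe, oLhe, oLhf, wAA, wBB, wFF, wXX, wZZ, wBA, wFA, wXA, wZA, wFB, wXB, wFX, wZB, wZF, wZX, wdAA, wdAB, wdAF, wdAX, wdAZ, wdAdA, wdZA, wdZB, wdZF, wdZX, wdZZ, wdZdZ, wdZdA, neg_neg, neg_zero, sub_zero, add_zero, zero_add, smul_zero, zero_sub, sub_self]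
          try module
      az := fun x => by
          simp only [oa_ap, oz_ap, ok_ap, oda_ap, odz_ap, map_add, map_sub, map_neg, map_smul, map_zero, oM_oL, oLfe, oLhe, oLhf, wAA, wBB, wFF, wXX, wZZ, wBA, wFA, wXA, wZA, wFB, wXB, wFX, wZB, wZF, wZX, wdAA, wdAB, wdAF, wdAX, wdAZ, wdAdA, wdZA, wdZB, wdZF, wdZX, wdZZ, wdZdZ, wdZdA, neg_neg, neg_zero, sub_zero, add_zero, zero_add, smul_zero, zero_sub, sub_self]
          try module
      zz := fun x => by
          simp only [oa_ap, oz_ap, ok_ap, oda_ap, odz_ap, map_add, map_sub, map_neg, map_smul, map_zero, oM_oL, oLfe, oLhe, oLhf, wAA, wBB, wFF, wXX, wZZ, wBA, wFA, wXA, wZA, wFB, wXB, wFX, wZB, wZF, wZX, wdAA, wdAB, wdAF, wdAX, wdAZ, wdAdA, wdZA, wdZB, wdZF, wdZX, wdZZ, wdZdZ, wdZdA, neg_neg, neg_zero, sub_zero, add_zero, zero_add, smul_zero, zero_sub, sub_self]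
          try module
      ka := fun x => by
          simp only [oa_ap, oz_ap, ok_ap, oda_ap, odz_ap, map_add, map_sub, map_neg, map_smul, map_zero, oM_oL, oLfe, oLhe, oLhf, wAA, wBB, wFF, wXX, wZZ, wBA, wFA, wXA, wZA, wFB, wXB, wFX, wZB, wZF, wZX, wdAA, wdAB, wdAF, wdAX, wdAZ, wdAdA, wdZA, wdZB, wdZF, wdZX, wdZZ, wdZdZ, wdZdA, neg_neg, neg_zero, sub_zero, add_zero, zero_add, smul_zero, zero_sub, sub_self]
          try module
      kz := fun x => by
          simp only [oa_ap, oz_ap, ok_ap, oda_ap, odz_ap, map_add, map_sub, map_neg, map_smul, map_zero, oM_oL, oLfe, oLhe, oLhf, wAA, wBB, wFF, wXX, wZZ, wBA, wFA, wXA, wZA, wFB, wXB, wFX, wZB, wZF, wZX, wdAA, wdAB, wdAF, wdAX, wdAZ, wdAdA, wdZA, wdZB, wdZF, wdZX, wdZZ, wdZdZ, wdZdA, neg_neg, neg_zero, sub_zero, add_zero, zero_add, smul_zero, zero_sub, sub_self]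
          try module
      kk := fun x => by
          simp only [oa_ap, oz_ap, ok_ap, oda_ap, odz_ap, map_add, map_sub, map_neg, map_smul, map_zero, oM_oL, oLfe, oLhe, oLhf, wAA, wBB, wFF, wXX, wZZ, wBA, wFA, wXA, wZA, wFB, wXB, wFX, wZB, wZF, wZX, wdAA, wdAB, wdAF, wdAX, wdAZ, wdAdA, wdZA, wdZB, wdZF, wdZX, wdZZ, wdZdZ, wdZdA, neg_neg, neg_zero, sub_zero, add_zero, zero_add, smul_zero, zero_sub, sub_self]
          try module
      Da := fun x => by
          simp only [oa_ap, oz_ap, ok_ap, oda_ap, odz_ap, map_add, map_sub, map_neg, map_smul, map_zero, oM_oL, oLfe, oLhe, oLhf, wAA, wBB, wFF, wXX, wZZ, wBA, wFA, wXA, wZA, wFB, wXB, wFX, wZB, wZF, wZX, wdAA, wdAB, wdAF, wdAX, wdAZ, wdAdA, wdZA, wdZB, wdZF, wdZX, wdZZ, wdZdZ, wdZdA, neg_neg, neg_zero, sub_zero, add_zero, zero_add, smul_zero, zero_sub, sub_self]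
          try module
      Dz := fun x => by
          simp only [oa_ap, oz_ap, ok_ap, oda_ap, odz_ap, map_add, map_sub, map_neg, map_smul, map_zero, oM_oL, oLfe, oLhe, oLhf, wAA, wBB, wFF, wXX, wZZ, wBA, wFA, wXA, wZA, wFB, wXB, wFX, wZB, wZF, wZX, wdAA, wdAB, wdAF, wdAX, wdAZ, wdAdA, wdZA, wdZB, wdZF, wdZX, wdZZ, wdZdZ, wdZdA, neg_neg, neg_zero, sub_zero, add_zero, zero_add, smul_zero, zero_sub, sub_self]
          try module
      Dk := fun x => by
          simp only [oa_ap, oz_ap, ok_ap, oda_ap, odz_ap, map_add, map_sub, map_neg, map_smul, map_zero, oM_oL, oLfe, oLhe, oLhf, wAA, wBB, wFF, wXX, wZZ, wBA, wFA, wXA, wZA, wFB, wXB, wFX, wZB, wZF, wZX, wdAA, wdAB, wdAF, wdAX, wdAZ, wdAdA, wdZA, wdZB, wdZF, wdZX, wdZZ, wdZdZ, wdZdA, neg_neg, neg_zero, sub_zero, add_zero, zero_add, smul_zero, zero_sub, sub_self]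
          try module
      Ea := fun x => by
          simp only [oa_ap, oz_ap, ok_ap, oda_ap, odz_ap, map_add, map_sub, map_neg, map_smul, map_zero, oM_oL, oLfe, oLhe, oLhf, wAA, wBB, wFF, wXX, wZZ, wBA, wFA, wXA, wZA, wFB, wXB, wFX, wZB, wZF, wZX, wdAA, wdAB, wdAF, wdAX, wdAZ, wdAdA, wdZA, wdZB, wdZF, wdZX, wdZZ, wdZdZ, wdZdA, neg_neg, neg_zero, sub_zero, add_zero, zero_add, smul_zero, zero_sub, sub_self]
          try module
      Ez := fun x => by
          simp only [oa_ap, oz_ap, ok_ap, oda_ap, odz_ap, map_add, map_sub, map_neg, map_smul, map_zero, oM_oL, oLfe, oLhe, oLhf, wAA, wBB, wFF, wXX, wZZ, wBA, wFA, wXA, wZA, wFB, wXB, wFX, wZB, wZF, wZX, wdAA, wdAB, wdAF, wdAX, wdAZ, wdAdA, wdZA, wdZB, wdZF, wdZX, wdZZ, wdZdZ, wdZdA, neg_neg, neg_zero, sub_zero, add_zero, zero_add, smul_zero, zero_sub, sub_self]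
          try module
      Ek := fun x => by
          simp only [oa_ap, oz_ap, ok_ap, oda_ap, odz_ap, map_add, map_sub, map_neg, map_smul, map_zero, oM_oL, oLfe, oLhe, oLhf, wAA, wBB, wFF, wXX, wZZ, wBA, wFA, wXA, wZA, wFB, wXB, wFX, wZB, wZF, wZX, wdAA, wdAB, wdAF, wdAX, wdAZ, wdAdA, wdZA, wdZB, wdZF, wdZX, wdZZ, wdZdZ, wdZdA, neg_neg, neg_zero, sub_zero, add_zero, zero_add, smul_zero, zero_sub, sub_self]
          try module
      DD := fun x => by
          simp only [oa_ap, oz_ap, ok_ap, oda_ap, odz_ap, map_add, map_sub, map_neg, map_smul, map_zero, oM_oL, oLfe, oLhe, oLhf, wAA, wBB, wFF, wXX, wZZ, wBA, wFA, wXA, wZA, wFB, wXB, wFX, wZB, wZF, wZX, wdAA, wdAB, wdAF, wdAX, wdAZ, wdAdA, wdZA, wdZB, wdZF, wdZX, wdZZ, wdZdZ, wdZdA, neg_neg, neg_zero, sub_zero, add_zero, zero_add, smul_zero, zero_sub, sub_self]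
          try module
      EE := fun x => by
          simp only [oa_ap, oz_ap, ok_ap, oda_ap, odz_ap, map_add, map_sub, map_neg, map_smul, map_zero, oM_oL, oLfe, oLhe, oLhf, wAA, wBB, wFF, wXX, wZZ, wBA, wFA, wXA, wZA, wFB, wXB, wFX, wZB, wZF, wZX, wdAA, wdAB, wdAF, wdAX, wdAZ, wdAdA, wdZA, wdZB, wdZF, wdZX, wdZZ, wdZdZ, wdZdA, neg_neg, neg_zero, sub_zero, add_zero, zero_add, smul_zero, zero_sub, sub_self]
          try module
      ED := fun x => by
          simp only [oa_ap, oz_ap, ok_ap, oda_ap, odz_ap, map_add, map_sub, map_neg, map_smul, map_zero, oM_oL, oLfe, oLhe, oLhf, wAA, wBB, wFF, wXX, wZZ, wBA, wFA, wXA, wZA, wFB, wXB, wFX, wZB, wZF, wZX, wdAA, wdAB, wdAF, wdAX, wdAZ, wdAdA, wdZA, wdZB, wdZF, wdZX, wdZZ, wdZdZ, wdZdA, neg_neg, neg_zero, sub_zero, add_zero, zero_add, smul_zero, zero_sub, sub_self]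
          try module }

end Run7.h270.Nak
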